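import Pool.Agent.Helper36_X1.Basic
import Pool.Agent.Helper36_X1.Stmts1

/-!
# X1, module DOM: every vector can be moved into the closed chamber
-/

open scoped BigOperators

noncomputable section

namespace Pool.Agent.PP.X1.H39

open Pool.Agent.PP.X1

variable {ℓ : ℕ} {G : Type} [Group G] (R : RGD ℓ G)

theorem sw_zero (w : List (Fin R.r)) : R.sw w 0 = 0 := by
  have := R.sw_smul w 0 0
  rwa [zero_smul, zero_smul] at this

theorem sw_sum {ι : Type} (w : List (Fin R.r)) (s : Finset ι) (f : ι → R.E) :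
    R.sw w (∑ j ∈ s, f j) = ∑ j ∈ s, R.sw w (f j) := by
  classical
  induction s using Finset.induction_on with
  | empty => simp only [Finset.sum_empty]; exact sw_zero R w
  | insert j s hj ih => rw [Finset.sum_insert hj, Finset.sum_insert hj, R.sw_add, ih]

theorem fin_vals (η δ : R.E) (hδ : δ ∈ Submodule.span ℝ (Set.range R.a)) :
    (Set.range fun w : List (Fin R.r) => (inner ℝ (R.sw w η) δ : ℝ)).Finite := by
  obtain ⟨k, hk⟩ := (Submodule.mem_span_range_iff_exists_fun ℝ).1 hδ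
  have hf : Finite R.Φ := R.fin.to_subtype
  have hfin : (Set.range fun f : Fin R.r → R.Φ =>
      (inner ℝ η (∑ j, k j • (f j : R.E)) : ℝ)).Finite := Set.finite_range _
  refine hfin.subset ?_
  rintro _ ⟨w, rfl⟩
  refine ⟨fun j => ⟨R.sw w.reverse (R.a j), R.sw_mem (R.mem j)⟩, ?_⟩
  have h1 : (∑ j, k j • R.sw w.reverse (R.a j)) = R.sw w.reverse δ := by
    rw [← hk, sw_sum]
    refine Finset.sum_congr rfl fun j _ => ?_
    rw [R.sw_smul]
  change inner ℝ η (∑ j, k j • R.sw w.reverse (R.a j)) = (inner ℝ (R.sw w η) δ : ℝ)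
  rw [h1, ← R.sw_inner w.reverse (R.sw w η) δ, R.sw_reverse_sw]

theorem exists_delta : ∃ δ ∈ Submodule.span ℝ (Set.range R.a), ∀ i,
    (inner ℝ δ (R.a i) : ℝ) = 1 := by
  let K := Submodule.span ℝ (Set.range R.a)
  let b : Module.Basis (Fin R.r) ℝ K := Module.Basis.span R.base
  let f : K →ₗ[ℝ] ℝ := b.constr ℝ fun _ => (1 : ℝ)
  have hf : ∀ i, f (b i) = 1 := fun i => by
    change b.constr ℝ (fun _ => (1 : ℝ)) (b i) = 1
    rw [Module.Basis.constr_basis]
  let δ : K := (InnerProductSpace.toDual ℝ K).symm (LinearMap.toContinuousLinearMap f)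
  refine ⟨δ, δ.2, fun i => ?_⟩
  have h1 : (inner ℝ δ (b i) : ℝ) = 1 := by
    have h2 : (inner ℝ δ (b i) : ℝ) = LinearMap.toContinuousLinearMap f (b i) :=
      InnerProductSpace.toDual_symm_apply
    rw [h2]
    exact hf i
  have h3 : ((b i : K) : R.E) = R.a i := congrArg Subtype.val (Module.Basis.span_apply R.base i)
  rw [← h3]
  exact h1

theorem dom : DomStmt := by
  intro ℓ G _ R η
  obtain ⟨δ, hδ, hδ1⟩ := exists_delta R
  obtain ⟨x, ⟨w, rfl⟩, hx⟩ := (fin_vals R η δ hδ).exists_maximal (Set.range_nonempty _)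
  refine ⟨w, fun i => ?_⟩
  by_contra hneg
  rw [not_le] at hneg
  have h1 : (inner ℝ (R.sw (i :: w) η) δ : ℝ) = inner ℝ (R.sw w η) δ -
      2 * inner ℝ (R.a i) (R.sw w η) / inner ℝ (R.a i) (R.a i) := by
    rw [R.sw_cons, R.s_eq, inner_sub_left, real_inner_smul_left, real_inner_comm δ (R.a i), hδ1 i,
      mul_one]
  have h2 : (0 : ℝ) < inner ℝ (R.a i) (R.a i) := by
    have h3 : (0 : ℝ) ≤ inner ℝ (R.a i) (R.a i) := real_inner_self_nonneg
    exact lt_of_le_of_ne h3 (Ne.symm (inner_self_ne_zero.mpr (R.a_ne i)))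
  have h4 : 2 * inner ℝ (R.a i) (R.sw w η) / inner ℝ (R.a i) (R.a i) < (0 : ℝ) := by
    apply div_neg_of_neg_of_pos _ h2
    rw [real_inner_comm]
    linarith
  have h5 : (inner ℝ (R.sw w η) δ : ℝ) < inner ℝ (R.sw (i :: w) η) δ := by
    rw [h1]
    linarith
  have h6 := hx ⟨i :: w, rfl⟩ h5.le
  exact absurd h6 (not_le.2 h5)

end Pool.Agent.PP.X1.H39
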